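import Mathlib
import Pool.Agent.Lib.PNT

open Finset Filter Topology
open scoped ArithmeticFunction.sigma

namespace Pool.Agent.H5S

/-- Dirichlet, strong form: the sum of `1 / q` over the primes `q ≡ e [MOD W]` diverges
(copy of `Pool.Agent.Hhelper89.LehmerFull.not_summable_AP`). -/
theorem not_summable_AP {W : ℕ} (hW : 0 < W) {e : ℕ} (he : e.Coprime W) :
    ¬ Summable (Set.indicator {q : ℕ | q.Prime ∧ (W : ℤ) ∣ q - e} (fun q : ℕ => 1 / (q : ℝ))) := by
  have : NeZero W := ⟨hW.ne'⟩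
  intro hs
  have hu : IsUnit (e : ZMod W) := (ZMod.isUnit_iff_coprime e W).2 he
  set A : ℕ → Prop := fun p => p.Prime ∧ (p : ZMod W) = (e : ZMod W) with hA
  have hiff : ∀ q : ℕ, A q ↔ (q.Prime ∧ (W : ℤ) ∣ q - e) := by
    intro q
    have h1 : ((q : ZMod W) = (e : ZMod W)) ↔ (W : ℤ) ∣ q - e := by
      rw [eq_comm, ZMod.natCast_eq_natCast_iff, Nat.modEq_iff_dvd]
    simp only [hA, h1]
  have hinf : (Set.ofPred A).Infinite := Nat.infinite_setOfPred_prime_and_eq_mod hu
  have hnth := Pool.Agent.Lib.PNT.nth_prime_AP hu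
  set g : ℕ → ℕ := fun n => Nat.nth A n with hg
  have hmono : StrictMono g := Nat.nth_strictMono hinf
  have hmem : ∀ n, A (g n) := fun n => Nat.nth_mem_of_infinite hinf n
  have h1 : Summable (fun n => 1 / (g n : ℝ)) := by
    have h2 := hs.comp_injective hmono.injective
    refine h2.congr fun n => ?_
    simp only [Function.comp]
    rw [Set.indicator_of_mem]
    exact (hiff _).1 (hmem n)
  have hpos : ∀ n, (0 : ℝ) < g n := fun n => by exact_mod_cast (hmem n).1.pos
  have h2 : Summable (fun k : ℕ => (2 : ℝ) ^ k * (1 / (g (2 ^ k) : ℝ))) := by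
    rw [summable_condensed_iff_of_nonneg (f := fun n => 1 / (g n : ℝ))]
    · exact h1
    · intro n; exact (div_pos one_pos (hpos n)).le
    · intro m n _ hmn
      exact one_div_le_one_div_of_le (hpos m) (by exact_mod_cast hmono.monotone hmn)
  have h3 : Tendsto (fun k : ℕ => (g (2 ^ k) : ℝ) / (((2 ^ k : ℕ) : ℝ) * Real.log ((2 ^ k : ℕ) : ℝ)))
      atTop (𝓝 (W.totient : ℝ)) :=
    hnth.comp (tendsto_pow_atTop_atTop_of_one_lt (by norm_num))
  have h4 : ∀ᶠ k : ℕ in atTop, 1 / (((W.totient : ℝ) + 1) * k) ≤ 2 ^ k * (1 / (g (2 ^ k) : ℝ)) := by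
    filter_upwards [h3.eventually_lt_const (lt_add_one (W.totient : ℝ)), eventually_gt_atTop 0]
      with k hk hk0
    have hk0' : (0 : ℝ) < k := by exact_mod_cast hk0
    have hl : Real.log ((2 ^ k : ℕ) : ℝ) = k * Real.log 2 := by
      push_cast; rw [Real.log_pow]
    have hl2 : 0 < Real.log 2 := Real.log_pos (by norm_num)
    have hl1 : Real.log 2 ≤ 1 := by
      have := Real.log_le_sub_one_of_pos (show (0 : ℝ) < 2 by norm_num)
      linarith
    rw [hl, div_lt_iff₀ (by positivity)] at hk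
    push_cast at hk
    have hφ : (0 : ℝ) < (W.totient : ℝ) + 1 := by positivity
    rw [mul_one_div, div_le_div_iff₀ (by positivity) (hpos _)]
    have h5 : ((W.totient : ℝ) + 1) * ((2 : ℝ) ^ k * (k * Real.log 2)) ≤
        ((W.totient : ℝ) + 1) * ((2 : ℝ) ^ k * (k * 1)) := by
      gcongr
    nlinarith [hk, h5]
  have h5 : Summable (fun k : ℕ => 1 / (((W.totient : ℝ) + 1) * k)) := by
    refine summable_of_isBigO_nat h2 ?_
    refine Asymptotics.IsBigO.of_bound 1 ?_
    filter_upwards [h4] with k hk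
    rw [one_mul, Real.norm_of_nonneg (by positivity), Real.norm_of_nonneg (by
      have := hpos (2 ^ k); positivity)]
    exact hk
  have h6 : Summable (fun k : ℕ => 1 / (k : ℝ)) := by
    have h7 := h5.mul_left ((W.totient : ℝ) + 1)
    refine h7.congr fun k => ?_
    have hφ : (W.totient : ℝ) + 1 ≠ 0 := by positivity
    rw [one_div, mul_inv, ← mul_assoc, mul_inv_cancel₀ hφ, one_mul, one_div]
  exact Real.not_summable_one_div_natCast h6

/-- finitely many primes `p ≡ 1 (mod q)`, all larger than `T`, sieve out almost everything -/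
theorem exists_sieve {q : ℕ} (hq : 0 < q) (T : ℕ) {ε : ℝ} (hε : 0 < ε) :
    ∃ P : Finset ℕ, (∀ p ∈ P, p.Prime ∧ T < p ∧ q ∣ p - 1) ∧
      ((∏ p ∈ P, p).totient : ℝ) ≤ ε * ((∏ p ∈ P, p : ℕ) : ℝ) := by
  classical
  have hns := not_summable_AP hq (Nat.coprime_one_left q)
  set f : ℕ → ℝ := Set.indicator {p : ℕ | p.Prime ∧ (q : ℤ) ∣ p - (1 : ℕ)}
    (fun p : ℕ => 1 / (p : ℝ)) with hf
  have hf0 : ∀ n, 0 ≤ f n := fun n => Set.indicator_apply_nonneg fun _ => by positivity
  have htend := (not_summable_iff_tendsto_nat_atTop_of_nonneg hf0).1 hns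
  obtain ⟨N, hN1, hN2⟩ := ((htend.eventually_ge_atTop
    (Real.log (1 / ε) + ∑ i ∈ range (T + 1), f i)).and (eventually_ge_atTop (T + 1))).exists
  set P : Finset ℕ := (Ico (T + 1) N).filter (fun p => p.Prime ∧ (q : ℤ) ∣ p - (1 : ℕ)) with hP
  have hprime : ∀ p ∈ P, p.Prime := fun p hp => (mem_filter.1 hp).2.1
  refine ⟨P, fun p hp => ?_, ?_⟩
  · obtain ⟨h1, h2, h3⟩ := mem_filter.1 hp
    refine ⟨h2, by have := (mem_Ico.1 h1).1; omega, ?_⟩
    have : ((p - 1 : ℕ) : ℤ) = (p : ℤ) - (1 : ℕ) := by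
      have := h2.one_lt.le
      push_cast [Nat.cast_sub this]; ring
    rw [← this] at h3
    exact_mod_cast h3
  · have hsum : Real.log (1 / ε) ≤ ∑ p ∈ P, 1 / (p : ℝ) := by
      have h1 : ∑ p ∈ P, 1 / (p : ℝ) = ∑ i ∈ Ico (T + 1) N, f i := by
        rw [hP, sum_filter]
        refine sum_congr rfl fun i _ => ?_
        rw [hf, Set.indicator_apply]
        rfl
      rw [h1, ← sub_nonneg]
      have h2 := Finset.sum_range_add_sum_Ico f hN2
      linarith
    have hpf : (∏ p ∈ P, p).primeFactors = P := Nat.primeFactors_prod hprime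
    have hM0 : (0 : ℝ) ≤ ((∏ p ∈ P, p : ℕ) : ℝ) := Nat.cast_nonneg _
    have htot : ((∏ p ∈ P, p).totient : ℝ) =
        ((∏ p ∈ P, p : ℕ) : ℝ) * ∏ p ∈ P, (1 - (p : ℝ)⁻¹) := by
      have h := Nat.totient_eq_mul_prod_factors (∏ p ∈ P, p)
      rw [hpf] at h
      have h2 := congrArg (fun x : ℚ => (x : ℝ)) h
      push_cast at h2 ⊢
      exact h2
    rw [htot, mul_comm]
    refine mul_le_mul_of_nonneg_right ?_ hM0
    calc ∏ p ∈ P, (1 - (p : ℝ)⁻¹) ≤ ∏ p ∈ P, Real.exp (-(1 / (p : ℝ))) := by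
          refine prod_le_prod (fun p hp => ?_) (fun p hp => ?_)
          · have : (1 : ℝ) ≤ p := by exact_mod_cast (hprime p hp).one_lt.le
            rw [sub_nonneg]
            exact inv_le_one_of_one_le₀ this
          · have := Real.add_one_le_exp (-(1 / (p : ℝ)))
            rw [one_div] at this ⊢
            linarith
      _ = Real.exp (-∑ p ∈ P, 1 / (p : ℝ)) := by
          rw [← Real.exp_sum, sum_neg_distrib]
      _ ≤ Real.exp (-Real.log (1 / ε)) := Real.exp_le_exp.2 (neg_le_neg hsum)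
      _ = ε := by
          rw [one_div, Real.log_inv, neg_neg, Real.exp_log hε]

/-- at most `φ(M) (n / M + 1)` integers of a block of `n` are prime to `M` -/
theorem count_coprime (M k n : ℕ) (hM : M ≠ 0) :
    (((Ico k (k + n)).filter (fun x => M.Coprime x)).card : ℝ) ≤
      (M.totient : ℝ) * ((n : ℝ) / M + 1) := by
  have h := Nat.Ico_filter_coprime_le k n hM
  calc (((Ico k (k + n)).filter (fun x => M.Coprime x)).card : ℝ)
      ≤ ((M.totient * (n / M + 1) : ℕ) : ℝ) := by exact_mod_cast h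
    _ ≤ _ := by
      push_cast
      gcongr
      exact Nat.cast_div_le

end Pool.Agent.H5S
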