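import Mathlib
import Pool.Agent.H5S.Base
import Pool.Agent.BMG.FAP
import Pool.Agent.BMG.KSieve

open Finset Filter Topology Pool.Agent.Lib.PrimePairs

namespace Pool.Agent.H5S

lemma F_sq_le : ∃ C : ℝ, 0 < C ∧ ∀ X n : ℕ, 3 ≤ X → n ≠ 0 → n ≤ X ^ 4 →
    F n ^ 2 ≤ C * Real.sqrt (Real.log X) := by
  obtain ⟨C₁, hC₁, hM⟩ := Pool.MRZ.PVb.mertens_nat
  refine ⟨Real.exp 24 * (Real.exp (9 * C₁) * (18 ^ 9 * Real.sqrt 3)), by positivity, ?_⟩
  intro X n hX hn0 hn
  have hl1 : 1 ≤ Real.log X := by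
    rw [Real.le_log_iff_exp_le (by positivity)]
    have h1 : (3 : ℝ) ≤ X := by exact_mod_cast hX
    have := Real.exp_one_lt_d9
    linarith
  set w : ℕ := ⌈Real.log X⌉₊ + 1 with hwdef
  have hw1 : Real.log X ≤ w := by
    have := Nat.le_ceil (Real.log X)
    rw [hwdef]
    push_cast
    linarith
  have hceil1 : 1 ≤ ⌈Real.log X⌉₊ := Nat.one_le_ceil_iff.2 (by linarith)
  have hw2 : 2 ≤ w := by omega
  have hw3 : (w : ℝ) ≤ 3 * Real.log X := by
    have := Nat.ceil_lt_add_one (by linarith : 0 ≤ Real.log X)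
    rw [hwdef]
    push_cast
    linarith
  have h1 := Pool.BMG.FAPAux.F_pow_le 2 X w n (by omega) (by omega) hw1 hn0 hn
  have h2 : ∏ p ∈ (Pool.BMG.FAPAux.Pw w).filter (fun p => p ∣ n), (1 + (3 : ℝ) ^ 2 / p) ≤
      ∏ p ∈ Pool.BMG.FAPAux.Pw w, (1 + 9 * (1 / (p : ℝ))) := by
    rw [prod_filter]
    refine prod_le_prod (fun p _ => ?_) (fun p _ => ?_)
    · split_ifs <;> positivity
    · split_ifs
      · rw [mul_one_div]; norm_num
      · have : (0 : ℝ) ≤ 9 * (1 / (p : ℝ)) := by positivity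
        linarith
  have h3 := Pool.BMG.FAPAux.prod_le_exp w 9 (by norm_num) (fun p => (1 : ℝ) / (p : ℝ))
    (fun p => by positivity)
  have h4 := hM w hw2
  have hS : ∑ p ∈ Pool.BMG.FAPAux.Pw w, (1 : ℝ) / (p : ℝ) = Pool.MRZ.PVb.S w := rfl
  rw [hS] at h3
  have hw0 : (0 : ℝ) < w := by positivity
  have hlw : 0 < Real.log w := Real.log_pos (by exact_mod_cast (by omega : 1 < w))
  have h5 : Real.exp (9 * Pool.MRZ.PVb.S w) ≤ Real.exp (9 * C₁) * (Real.log w) ^ 9 := by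
    have h6 : Pool.MRZ.PVb.S w ≤ Real.log (Real.log w) + C₁ := by
      have := (abs_le.1 h4).2
      linarith
    calc Real.exp (9 * Pool.MRZ.PVb.S w) ≤ Real.exp (9 * C₁ + 9 * Real.log (Real.log w)) :=
          Real.exp_le_exp.2 (by linarith)
      _ = Real.exp (9 * C₁) * (Real.log w) ^ 9 := by
          rw [Real.exp_add]
          congr 1
          rw [show (9 : ℝ) * Real.log (Real.log w) = Real.log ((Real.log w) ^ 9) by
            rw [Real.log_pow]; norm_num]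
          exact Real.exp_log (by positivity)
  have h6 : (Real.log w) ^ 9 ≤ 18 ^ 9 * Real.sqrt w := by
    have h7 := Real.log_le_rpow_div (x := (w : ℝ)) hw0.le (ε := 1 / 18) (by norm_num)
    calc (Real.log w) ^ 9 ≤ ((w : ℝ) ^ (1 / 18 : ℝ) / (1 / 18)) ^ 9 := by gcongr
      _ = 18 ^ 9 * Real.sqrt w := by
          rw [div_pow, ← Real.rpow_natCast, ← Real.rpow_mul hw0.le, Real.sqrt_eq_rpow]
          norm_num
          ring
  have h7 : Real.sqrt w ≤ Real.sqrt 3 * Real.sqrt (Real.log X) := by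
    rw [← Real.sqrt_mul (by norm_num)]
    exact Real.sqrt_le_sqrt hw3
  have he : Real.exp (12 * ((2 : ℕ) : ℝ)) = Real.exp 24 := by norm_num
  rw [he] at h1
  calc F n ^ 2 ≤ Real.exp 24 * ∏ p ∈ (Pool.BMG.FAPAux.Pw w).filter (fun p => p ∣ n),
          (1 + (3 : ℝ) ^ 2 / p) := h1
    _ ≤ Real.exp 24 * (Real.exp (9 * C₁) * (18 ^ 9 * (Real.sqrt 3 * Real.sqrt (Real.log X)))) := by
        refine mul_le_mul_of_nonneg_left (h2.trans (h3.trans (h5.trans ?_))) (Real.exp_nonneg _)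
        refine mul_le_mul_of_nonneg_left (h6.trans ?_) (Real.exp_nonneg _)
        exact mul_le_mul_of_nonneg_left h7 (by positivity)
    _ = _ := by ring

/-- Selberg: primes `p` with `c (p - 1) + 1` prime -/
lemma two_forms : ∃ C : ℝ, 0 < C ∧ ∀ X N y c : ℕ, 3 ≤ X → 2 ≤ c → c ≤ X → 2 ≤ y →
    (((Icc 1 N).filter (fun p => p.Prime ∧ (c * (p - 1) + 1).Prime)).card : ℝ) ≤
      C * Real.sqrt (Real.log X) * N / Real.log y ^ 2 + 3 * (y : ℝ) ^ 18 := by
  obtain ⟨C₁, hC₁, h1⟩ := Pool.BMG.kforms_le 2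
  obtain ⟨C₂, hC₂, h2⟩ := F_sq_le
  refine ⟨C₁ * C₂, by positivity, fun X N y c hX hc hcX hy => ?_⟩
  set T : Finset (ℕ × ℕ) := {(1, 0), (c, c - 1)} with hT
  have hne : ((1 : ℕ), (0 : ℕ)) ≠ (c, c - 1) := by
    intro h
    have := (Prod.mk.inj h).1
    omega
  have hcard : T.card = 2 := card_pair hne
  have hT1 : ∀ θ ∈ T, 1 ≤ θ.1 := by
    intro θ hθ
    rw [hT, mem_insert, mem_singleton] at hθ
    rcases hθ with rfl | rfl
    · exact le_rfl
    · show 1 ≤ c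
      omega
  have hoff : ∀ z ∈ T.offDiag, z.1.1 * z.2.2 ≠ z.2.1 * z.1.2 ∧
      Nat.dist (z.1.1 * z.2.2) (z.2.1 * z.1.2) ≤ X := by
    intro z hz
    rw [mem_offDiag] at hz
    obtain ⟨z1, z2⟩ := z
    obtain ⟨ha, hb, hab⟩ := hz
    simp only [hT, mem_insert, mem_singleton] at ha hb
    rcases ha with rfl | rfl <;> rcases hb with rfl | rfl
    · exact absurd rfl hab
    · simp only [one_mul, mul_zero]
      refine ⟨by omega, ?_⟩
      rw [Nat.dist_zero_right]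
      omega
    · simp only [one_mul, mul_zero]
      refine ⟨by omega, ?_⟩
      rw [Nat.dist_zero_left]
      omega
    · exact absurd rfl hab
  have hy2 : 4 ≤ y ^ 2 := by nlinarith
  have h3 := h1 T (y ^ 2 + 1) N y hcard hT1 (fun z hz => (hoff z hz).1) hy (by
    intro θ hθ
    rw [hT, mem_insert, mem_singleton] at hθ
    rcases hθ with rfl | rfl
    · simp
    · show c - 1 + y ^ 2 ≤ c * (y ^ 2 + 1)
      have : y ^ 2 ≤ c * y ^ 2 := Nat.le_mul_of_pos_left _ (by omega)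
      rw [mul_add, mul_one]
      omega)
  have hdet0 : Pool.BMG.detD T ≠ 0 := (Pool.BMG.detD_pos hT1 (fun z hz => (hoff z hz).1)).ne'
  have hdet : Pool.BMG.detD T ≤ X ^ 4 := by
    unfold Pool.BMG.detD
    have e1 : ∏ θ ∈ T, θ.1 = c := by
      rw [hT, prod_pair hne]
      simp
    have e2 : ∏ z ∈ T.offDiag, Nat.dist (z.1.1 * z.2.2) (z.2.1 * z.1.2) ≤ X ^ 2 := by
      refine (prod_le_pow_card _ _ _ (fun z hz => (hoff z hz).2)).trans_eq ?_
      rw [offDiag_card, hcard]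
    rw [e1, hcard]
    calc Nat.factorial 2 * c * ∏ z ∈ T.offDiag, Nat.dist (z.1.1 * z.2.2) (z.2.1 * z.1.2)
        ≤ X * X * X ^ 2 := by
          refine Nat.mul_le_mul (Nat.mul_le_mul ?_ hcX) e2
          rw [Nat.factorial_two]
          omega
      _ = X ^ 4 := by ring
  have h4 := h2 X _ hX hdet0 hdet
  have hsub : (Icc 1 N).filter (fun p => p.Prime ∧ (c * (p - 1) + 1).Prime) ⊆
      Icc 1 (y ^ 2 + 1) ∪ (Ioc (y ^ 2 + 1) (y ^ 2 + 1 + N)).filter
        (fun n => ∀ θ ∈ T, (θ.1 * n - θ.2).Prime) := by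
    intro p hp
    obtain ⟨hp1, hp2, hp3⟩ := mem_filter.1 hp
    rw [mem_Icc] at hp1
    by_cases h : p ≤ y ^ 2 + 1
    · exact mem_union_left _ (mem_Icc.2 ⟨hp1.1, h⟩)
    · refine mem_union_right _ (mem_filter.2 ⟨mem_Ioc.2 ⟨by omega, by omega⟩, ?_⟩)
      intro θ hθ
      rw [hT, mem_insert, mem_singleton] at hθ
      rcases hθ with rfl | rfl
      · simpa using hp2
      · have e : c * p - (c - 1) = c * (p - 1) + 1 := by
          have e1 : c * p = c * (p - 1) + c := by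
            conv_lhs => rw [show p = (p - 1) + 1 by omega]
            ring
          omega
        show (c * p - (c - 1)).Prime
        rw [e]
        exact hp3
  have h5 : (((Icc 1 N).filter (fun p => p.Prime ∧ (c * (p - 1) + 1).Prime)).card : ℝ) ≤
      ((y : ℝ) ^ 2 + 1) + (((Ioc (y ^ 2 + 1) (y ^ 2 + 1 + N)).filter
        (fun n => ∀ θ ∈ T, (θ.1 * n - θ.2).Prime)).card : ℝ) := by
    have := (card_le_card hsub).trans (card_union_le _ _)
    rw [Nat.card_Icc, Nat.add_sub_cancel] at this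
    exact_mod_cast this
  have hy1 : (2 : ℝ) ≤ y := by exact_mod_cast hy
  have h6 : (y : ℝ) ^ 2 + 1 ≤ 2 * (y : ℝ) ^ 18 := by
    have e1 : (y : ℝ) ^ 2 ≤ (y : ℝ) ^ 18 := pow_le_pow_right₀ (by linarith) (by norm_num)
    have e2 : (1 : ℝ) ≤ (y : ℝ) ^ 18 := one_le_pow₀ (by linarith)
    linarith
  have h7 : C₁ * F (Pool.BMG.detD T) ^ 2 * N / Real.log y ^ 2 ≤
      C₁ * C₂ * Real.sqrt (Real.log X) * N / Real.log y ^ 2 := by
    refine div_le_div_of_nonneg_right ?_ (by positivity)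
    refine mul_le_mul_of_nonneg_right ?_ (Nat.cast_nonneg N)
    rw [mul_assoc C₁ C₂]
    exact mul_le_mul_of_nonneg_left h4 hC₁.le
  have h8 : (y : ℝ) ^ (6 * 2 + 6) = (y : ℝ) ^ 18 := by norm_num
  rw [h8] at h3
  linarith

end Pool.Agent.H5S
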