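import Mathlib
import Pool.Agent.H5S.Base
import Pool.Agent.H5S.TwoForms

open Finset Filter Topology

namespace Pool.Agent.H5S

open Classical in
/-- the decomposition of `{m ≤ X : φ(m) + 1 prime}` -/
lemma decomp (X Y : ℕ) (hY : 1 ≤ Y) :
    (((Icc 1 X).filter (fun m => (m.totient + 1).Prime)).card : ℝ) ≤
      (((Icc 1 X).filter (fun m => ∀ p, p.Prime → p ∣ m → p ≤ Y)).card : ℝ) +
      (X : ℝ) * (2 / (Y + 1)) +
      ∑ r ∈ Icc 1 (X / Y), (((Icc 1 (X / r)).filter
        (fun p => p.Prime ∧ (r.totient * (p - 1) + 1).Prime)).card : ℝ) := by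
  classical
  have hsub : (Icc 1 X).filter (fun m => (m.totient + 1).Prime) ⊆
      ((Icc 1 X).filter (fun m => ∀ p, p.Prime → p ∣ m → p ≤ Y)) ∪
      ((Ioo Y (X + 1)).biUnion (fun p => (Icc 1 X).filter (fun m => p ^ 2 ∣ m))) ∪
      ((Icc 1 (X / Y)).biUnion (fun r => ((Icc 1 (X / r)).filter
        (fun p => p.Prime ∧ (r.totient * (p - 1) + 1).Prime)).image (fun p => p * r))) := by
    intro m hm
    obtain ⟨h1, h2⟩ := mem_filter.1 hm
    rw [mem_Icc] at h1
    by_cases hs : ∀ p, p.Prime → p ∣ m → p ≤ Y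
    · exact mem_union_left _ (mem_union_left _ (mem_filter.2 ⟨mem_Icc.2 h1, hs⟩))
    · push Not at hs
      obtain ⟨p, hp, ⟨r, rfl⟩, hpY⟩ := hs
      have hr0 : 0 < r := Nat.pos_of_ne_zero (by rintro rfl; simp at h1)
      by_cases hpr : p ∣ r
      · refine mem_union_left _ (mem_union_right _ (mem_biUnion.2 ⟨p, ?_, ?_⟩))
        · rw [mem_Ioo]
          have : p * 1 ≤ p * r := Nat.mul_le_mul_left p hr0
          omega
        · refine mem_filter.2 ⟨mem_Icc.2 h1, ?_⟩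
          rw [pow_two]
          exact Nat.mul_dvd_mul_left p hpr
      · refine mem_union_right _ (mem_biUnion.2 ⟨r, ?_, ?_⟩)
        · rw [mem_Icc]
          refine ⟨hr0, ?_⟩
          rw [Nat.le_div_iff_mul_le (by omega), mul_comm]
          exact (Nat.mul_le_mul_right r hpY.le).trans h1.2
        · refine mem_image.2 ⟨p, mem_filter.2 ⟨?_, hp, ?_⟩, rfl⟩
          · rw [mem_Icc, Nat.le_div_iff_mul_le hr0]
            exact ⟨hp.one_lt.le, h1.2⟩
          · rw [Nat.totient_mul ((hp.coprime_iff_not_dvd).2 hpr), Nat.totient_prime hp,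
              mul_comm] at h2
            exact h2
  have h1 := (card_le_card hsub).trans ((card_union_le _ _).trans
    (Nat.add_le_add ((card_union_le _ _).trans (Nat.add_le_add_left card_biUnion_le _))
      card_biUnion_le))
  have h2 : ∑ p ∈ Ioo Y (X + 1), (((Icc 1 X).filter (fun m => p ^ 2 ∣ m)).card : ℝ) ≤
      (X : ℝ) * (2 / (Y + 1)) := by
    have h4 : ∀ p ∈ Ioo Y (X + 1), (((Icc 1 X).filter (fun m => p ^ 2 ∣ m)).card : ℝ) ≤
        X * (((p : ℝ) ^ 2)⁻¹) := by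
      intro p hp
      have h5 : ((Icc 1 X).filter (fun k => p ^ 2 ∣ k)).card = X / p ^ 2 := by
        have := Nat.Ioc_filter_dvd_card_eq_div X (p ^ 2)
        rw [← this]
        congr 1
      rw [h5]
      refine Nat.cast_div_le.trans ?_
      push_cast
      rw [div_eq_mul_inv]
    refine (sum_le_sum h4).trans ?_
    rw [← mul_sum]
    exact mul_le_mul_of_nonneg_left (sum_Ioo_inv_sq_le (α := ℝ) Y (X + 1)) (Nat.cast_nonneg X)
  have h3 : ∑ r ∈ Icc 1 (X / Y), ((((Icc 1 (X / r)).filter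
        (fun p => p.Prime ∧ (r.totient * (p - 1) + 1).Prime)).image (fun p => p * r)).card : ℝ) ≤
      ∑ r ∈ Icc 1 (X / Y), (((Icc 1 (X / r)).filter
        (fun p => p.Prime ∧ (r.totient * (p - 1) + 1).Prime)).card : ℝ) := by
    refine sum_le_sum fun r _ => ?_
    exact_mod_cast card_image_le
  have h4 : (((Icc 1 X).filter (fun m => (m.totient + 1).Prime)).card : ℝ) ≤
      (((Icc 1 X).filter (fun m => ∀ p, p.Prime → p ∣ m → p ≤ Y)).card : ℝ) +
      (∑ p ∈ Ioo Y (X + 1), (((Icc 1 X).filter (fun m => p ^ 2 ∣ m)).card : ℝ)) +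
      ∑ r ∈ Icc 1 (X / Y), ((((Icc 1 (X / r)).filter
        (fun p => p.Prime ∧ (r.totient * (p - 1) + 1).Prime)).image (fun p => p * r)).card : ℝ) := by
    exact_mod_cast h1
  linarith

/-- the primes have density zero, with the base sieve -/
lemma primes_sparse {ε : ℝ} (hε : 0 < ε) : ∃ C : ℝ, ∀ N : ℕ,
    (((Icc 1 N).filter Nat.Prime).card : ℝ) ≤ ε * N + C := by
  classical
  obtain ⟨P, hP1, hP2⟩ := exists_sieve (q := 1) (by omega) 1 hε
  set M : ℕ := ∏ p ∈ P, p with hM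
  have hM0 : M ≠ 0 := prod_ne_zero_iff.2 fun p hp => (hP1 p hp).1.ne_zero
  have hMpos : (0 : ℝ) < M := by exact_mod_cast Nat.pos_of_ne_zero hM0
  refine ⟨M.totient + P.card, fun N => ?_⟩
  have hsub : (Icc 1 N).filter Nat.Prime ⊆ ((Ico 1 (1 + N)).filter (fun x => M.Coprime x)) ∪ P := by
    intro p hp
    obtain ⟨h1, h2⟩ := mem_filter.1 hp
    rw [mem_Icc] at h1
    by_cases h : p ∈ P
    · exact mem_union_right _ h
    · refine mem_union_left _ (mem_filter.2 ⟨mem_Ico.2 ⟨h1.1, by omega⟩, ?_⟩)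
      rw [hM, Nat.coprime_prod_left_iff]
      intro q hq
      rw [Nat.coprime_primes (hP1 q hq).1 h2]
      rintro rfl
      exact h hq
  have h1 := (card_le_card hsub).trans (card_union_le _ _)
  have h2 := count_coprime M 1 N hM0
  have h6 : (M.totient : ℝ) * ((N : ℝ) / M) ≤ ε * N := by
    calc (M.totient : ℝ) * ((N : ℝ) / M) ≤ (ε * M) * ((N : ℝ) / M) := by gcongr
      _ = ε * N := by field_simp
  have h3 : (((Icc 1 N).filter Nat.Prime).card : ℝ) ≤
      (((Ico 1 (1 + N)).filter (fun x => M.Coprime x)).card : ℝ) + P.card := by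
    exact_mod_cast h1
  linarith

lemma two_le_totient {r : ℕ} (hr : 3 ≤ r) : 2 ≤ r.totient := by
  have h1 : Even r.totient := Nat.totient_even (by omega)
  have h2 : 0 < r.totient := Nat.totient_pos.2 (by omega)
  obtain ⟨t, ht⟩ := h1
  omega

/-- the third sum -/
lemma third : ∃ C : ℝ, 0 < C ∧ ∀ X Y y : ℕ, 3 ≤ X → 2 ≤ y → 1 ≤ Y → Y ≤ X →
    ∑ r ∈ Icc 1 (X / Y), (((Icc 1 (X / r)).filter
        (fun p => p.Prime ∧ (r.totient * (p - 1) + 1).Prime)).card : ℝ) ≤
      2 * (((Icc 1 X).filter Nat.Prime).card : ℝ) +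
      C * Real.sqrt (Real.log X) * (1 + Real.log X) * X / Real.log y ^ 2 +
        3 * (y : ℝ) ^ 18 * (X / Y) := by
  obtain ⟨C, hC, h1⟩ := two_forms
  refine ⟨C, hC, fun X Y y hX hy hY hYX => ?_⟩
  have hly : 0 < Real.log y := Real.log_pos (by exact_mod_cast (by omega : 1 < y))
  have hlX : 0 ≤ Real.log X := Real.log_nonneg (by exact_mod_cast (by omega : 1 ≤ X))
  have hterm : ∀ r ∈ Icc 1 (X / Y), (((Icc 1 (X / r)).filter
        (fun p => p.Prime ∧ (r.totient * (p - 1) + 1).Prime)).card : ℝ) ≤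
      (if r ∈ ({1, 2} : Finset ℕ) then (((Icc 1 X).filter Nat.Prime).card : ℝ) else 0) +
      (C * Real.sqrt (Real.log X) * X / Real.log y ^ 2 * (1 / (r : ℝ)) + 3 * (y : ℝ) ^ 18) := by
    intro r hr
    rw [mem_Icc] at hr
    have hrX : r ≤ X := hr.2.trans (Nat.div_le_self _ _)
    by_cases h : r ∈ ({1, 2} : Finset ℕ)
    · rw [if_pos h]
      have h2 : (((Icc 1 (X / r)).filter
        (fun p => p.Prime ∧ (r.totient * (p - 1) + 1).Prime)).card : ℝ) ≤
          (((Icc 1 X).filter Nat.Prime).card : ℝ) := by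
        norm_cast
        refine card_le_card fun p hp => ?_
        obtain ⟨h3, h4, _⟩ := mem_filter.1 hp
        rw [mem_Icc] at h3
        exact mem_filter.2 ⟨mem_Icc.2 ⟨h3.1, h3.2.trans (Nat.div_le_self _ _)⟩, h4⟩
      have h3 : (0 : ℝ) ≤ C * Real.sqrt (Real.log X) * X / Real.log y ^ 2 * (1 / (r : ℝ)) := by
        positivity
      have h4 : (0 : ℝ) ≤ 3 * (y : ℝ) ^ 18 := by positivity
      linarith
    · rw [if_neg h, zero_add]
      have hr3 : 3 ≤ r := by
        by_contra hlt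
        apply h
        rw [mem_insert, mem_singleton]
        omega
      refine (h1 X (X / r) y r.totient hX (two_le_totient hr3) ((Nat.totient_le r).trans hrX)
        hy).trans ?_
      have h2 : C * Real.sqrt (Real.log X) * ((X / r : ℕ) : ℝ) / Real.log y ^ 2 ≤
          C * Real.sqrt (Real.log X) * X / Real.log y ^ 2 * (1 / (r : ℝ)) := by
        have h3 : ((X / r : ℕ) : ℝ) ≤ (X : ℝ) / r := Nat.cast_div_le
        calc C * Real.sqrt (Real.log X) * ((X / r : ℕ) : ℝ) / Real.log y ^ 2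
            ≤ C * Real.sqrt (Real.log X) * ((X : ℝ) / r) / Real.log y ^ 2 := by gcongr
          _ = _ := by ring
      linarith
  refine (sum_le_sum hterm).trans ?_
  rw [sum_add_distrib, sum_add_distrib, ← mul_sum, sum_const, nsmul_eq_mul, Nat.card_Icc,
    Nat.add_sub_cancel, ← sum_filter, sum_const, nsmul_eq_mul]
  have e1 : (((Icc 1 (X / Y)).filter (fun r => r ∈ ({1, 2} : Finset ℕ))).card : ℝ) ≤ 2 := by
    have : ((Icc 1 (X / Y)).filter (fun r => r ∈ ({1, 2} : Finset ℕ))).card ≤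
        ({1, 2} : Finset ℕ).card := card_le_card fun r hr => (mem_filter.1 hr).2
    exact_mod_cast this
  have e2 : ∑ r ∈ Icc 1 (X / Y), (1 : ℝ) / (r : ℝ) ≤ 1 + Real.log X := by
    have h2 : ∑ r ∈ Icc 1 (X / Y), (1 : ℝ) / (r : ℝ) ≤ ∑ r ∈ Icc 1 X, (1 : ℝ) / (r : ℝ) :=
      sum_le_sum_of_subset_of_nonneg (Icc_subset_Icc_right (Nat.div_le_self _ _))
        (fun _ _ _ => by positivity)
    refine h2.trans ?_
    have h3 := harmonic_le_one_add_log X
    rw [harmonic_eq_sum_Icc] at h3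
    push_cast at h3
    simpa [one_div] using h3
  have e3 : (((Icc 1 (X / Y)).filter (fun r => r ∈ ({1, 2} : Finset ℕ))).card : ℝ) *
      (((Icc 1 X).filter Nat.Prime).card : ℝ) ≤ 2 * (((Icc 1 X).filter Nat.Prime).card : ℝ) := by
    gcongr
  have e4 : C * Real.sqrt (Real.log X) * X / Real.log y ^ 2 * ∑ r ∈ Icc 1 (X / Y), (1 : ℝ) / (r : ℝ)
      ≤ C * Real.sqrt (Real.log X) * (1 + Real.log X) * X / Real.log y ^ 2 := by
    calc _ ≤ C * Real.sqrt (Real.log X) * X / Real.log y ^ 2 * (1 + Real.log X) := by gcongr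
      _ = _ := by ring
  have e5 : ((X / Y : ℕ) : ℝ) * (3 * (y : ℝ) ^ 18) ≤ 3 * (y : ℝ) ^ 18 * ((X : ℝ) / Y) := by
    have h3 : ((X / Y : ℕ) : ℝ) ≤ (X : ℝ) / Y := Nat.cast_div_le
    calc ((X / Y : ℕ) : ℝ) * (3 * (y : ℝ) ^ 18) ≤ ((X : ℝ) / Y) * (3 * (y : ℝ) ^ 18) := by gcongr
      _ = _ := by ring
  linarith

end Pool.Agent.H5S
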