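import Mathlib
import Pool.Agent.H5S.Base
import Pool.Agent.H5S.TwoFormsS

open Finset Filter Topology

namespace Pool.Agent.H5S

open Classical in
/-- the decomposition of `{m ≤ X : φ(m) + s prime}` -/
lemma decomp_s (X Y s : ℕ) (hY : 1 ≤ Y) :
    (((Icc 1 X).filter (fun m => (m.totient + s).Prime)).card : ℝ) ≤
      (((Icc 1 X).filter (fun m => ∀ p, p.Prime → p ∣ m → p ≤ Y)).card : ℝ) +
      (X : ℝ) * (2 / (Y + 1)) +
      ∑ r ∈ Icc 1 (X / Y), (((Icc 1 (X / r)).filter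
        (fun p => p.Prime ∧ (r.totient * (p - 1) + s).Prime)).card : ℝ) := by
  classical
  have hsub : (Icc 1 X).filter (fun m => (m.totient + s).Prime) ⊆
      ((Icc 1 X).filter (fun m => ∀ p, p.Prime → p ∣ m → p ≤ Y)) ∪
      ((Ioo Y (X + 1)).biUnion (fun p => (Icc 1 X).filter (fun m => p ^ 2 ∣ m))) ∪
      ((Icc 1 (X / Y)).biUnion (fun r => ((Icc 1 (X / r)).filter
        (fun p => p.Prime ∧ (r.totient * (p - 1) + s).Prime)).image (fun p => p * r))) := by
    intro m hm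
    obtain ⟨h1, h2⟩ := mem_filter.1 hm
    rw [mem_Icc] at h1
    by_cases hs : ∀ p, p.Prime → p ∣ m → p ≤ Y
    · exact mem_union_left _ (mem_union_left _ (mem_filter.2 ⟨mem_Icc.2 h1, hs⟩))
    · push Not at hs
      obtain ⟨p, hp, ⟨r, rfl⟩, hpY⟩ := hs
      have hr0 : 0 < r := Nat.pos_of_ne_zero (by rintro rfl; simp at h1)
      by_cases hpr : p ∣ r
      · refine mem_union_left _ (mem_union_right _ (mem_biUnion.2 ⟨p, ?_, ?_⟩))
        · rw [mem_Ioo]
          have : p * 1 ≤ p * r := Nat.mul_le_mul_left p hr0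
          omega
        · refine mem_filter.2 ⟨mem_Icc.2 h1, ?_⟩
          rw [pow_two]
          exact Nat.mul_dvd_mul_left p hpr
      · refine mem_union_right _ (mem_biUnion.2 ⟨r, ?_, ?_⟩)
        · rw [mem_Icc]
          refine ⟨hr0, ?_⟩
          rw [Nat.le_div_iff_mul_le (by omega), mul_comm]
          exact (Nat.mul_le_mul_right r hpY.le).trans h1.2
        · refine mem_image.2 ⟨p, mem_filter.2 ⟨?_, hp, ?_⟩, rfl⟩
          · rw [mem_Icc, Nat.le_div_iff_mul_le hr0]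
            exact ⟨hp.one_lt.le, h1.2⟩
          · rw [Nat.totient_mul ((hp.coprime_iff_not_dvd).2 hpr), Nat.totient_prime hp,
              mul_comm] at h2
            exact h2
  have h1 := (card_le_card hsub).trans ((card_union_le _ _).trans
    (Nat.add_le_add ((card_union_le _ _).trans (Nat.add_le_add_left card_biUnion_le _))
      card_biUnion_le))
  have h2 : ∑ p ∈ Ioo Y (X + 1), (((Icc 1 X).filter (fun m => p ^ 2 ∣ m)).card : ℝ) ≤
      (X : ℝ) * (2 / (Y + 1)) := by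
    have h4 : ∀ p ∈ Ioo Y (X + 1), (((Icc 1 X).filter (fun m => p ^ 2 ∣ m)).card : ℝ) ≤
        X * (((p : ℝ) ^ 2)⁻¹) := by
      intro p hp
      have h5 : ((Icc 1 X).filter (fun k => p ^ 2 ∣ k)).card = X / p ^ 2 := by
        have := Nat.Ioc_filter_dvd_card_eq_div X (p ^ 2)
        rw [← this]
        congr 1
      rw [h5]
      refine Nat.cast_div_le.trans ?_
      push_cast
      rw [div_eq_mul_inv]
    refine (sum_le_sum h4).trans ?_
    rw [← mul_sum]
    exact mul_le_mul_of_nonneg_left (sum_Ioo_inv_sq_le (α := ℝ) Y (X + 1)) (Nat.cast_nonneg X)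
  have h3 : ∑ r ∈ Icc 1 (X / Y), ((((Icc 1 (X / r)).filter
        (fun p => p.Prime ∧ (r.totient * (p - 1) + s).Prime)).image (fun p => p * r)).card : ℝ) ≤
      ∑ r ∈ Icc 1 (X / Y), (((Icc 1 (X / r)).filter
        (fun p => p.Prime ∧ (r.totient * (p - 1) + s).Prime)).card : ℝ) := by
    refine sum_le_sum fun r _ => ?_
    exact_mod_cast card_image_le
  have h4 : (((Icc 1 X).filter (fun m => (m.totient + s).Prime)).card : ℝ) ≤
      (((Icc 1 X).filter (fun m => ∀ p, p.Prime → p ∣ m → p ≤ Y)).card : ℝ) +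
      (∑ p ∈ Ioo Y (X + 1), (((Icc 1 X).filter (fun m => p ^ 2 ∣ m)).card : ℝ)) +
      ∑ r ∈ Icc 1 (X / Y), ((((Icc 1 (X / r)).filter
        (fun p => p.Prime ∧ (r.totient * (p - 1) + s).Prime)).image (fun p => p * r)).card : ℝ) := by
    exact_mod_cast h1
  linarith

/-- the third sum -/
lemma third_s : ∃ C : ℝ, 0 < C ∧ ∀ X Y y s : ℕ, 3 ≤ X → 2 ≤ y → 1 ≤ Y → Y ≤ X → 2 ≤ s → s ≤ X ^ 2 →
    ∑ r ∈ Icc 1 (X / Y), (((Icc 1 (X / r)).filter
        (fun p => p.Prime ∧ (r.totient * (p - 1) + s).Prime)).card : ℝ) ≤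
      C * Real.log (6 * Real.log X) ^ 9 * (1 + Real.log X) * X / Real.log y ^ 2 +
        3 * (y : ℝ) ^ 18 * (X / Y) := by
  obtain ⟨C, hC, h1⟩ := two_forms_s
  refine ⟨C, hC, fun X Y y s hX hy hY hYX hs hsX => ?_⟩
  have hly : 0 < Real.log y := Real.log_pos (by exact_mod_cast (by omega : 1 < y))
  have hl1 : 1 ≤ Real.log X := by
    rw [Real.le_log_iff_exp_le (by positivity)]
    have h1 : (3 : ℝ) ≤ X := by exact_mod_cast hX
    have := Real.exp_one_lt_d9
    linarith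
  have hlX : 0 ≤ Real.log X := by linarith
  have hll : 0 ≤ Real.log (6 * Real.log X) := Real.log_nonneg (by linarith)
  have hterm : ∀ r ∈ Icc 1 (X / Y), (((Icc 1 (X / r)).filter
        (fun p => p.Prime ∧ (r.totient * (p - 1) + s).Prime)).card : ℝ) ≤
      C * Real.log (6 * Real.log X) ^ 9 * X / Real.log y ^ 2 * (1 / (r : ℝ)) + 3 * (y : ℝ) ^ 18 := by
    intro r hr
    rw [mem_Icc] at hr
    have hrX : r ≤ X := hr.2.trans (Nat.div_le_self _ _)
    have h3 : (0 : ℝ) ≤ C * Real.log (6 * Real.log X) ^ 9 * X / Real.log y ^ 2 * (1 / (r : ℝ)) := by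
      positivity
    have h4 : (0 : ℝ) ≤ 3 * (y : ℝ) ^ 18 := by positivity
    by_cases h : r.totient = s
    · have h5 : (Icc 1 (X / r)).filter
          (fun p => p.Prime ∧ (r.totient * (p - 1) + s).Prime) = ∅ := by
        refine filter_eq_empty_iff.2 ?_
        rintro p hp ⟨h6, h7⟩
        have e : r.totient * (p - 1) + s = s * p := by
          rw [h]
          have := h6.pos
          conv_rhs => rw [show p = (p - 1) + 1 by omega]
          ring
        rw [e] at h7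
        exact Nat.not_prime_mul (by omega) h6.one_lt.ne' h7
      rw [h5, card_empty]
      push_cast
      linarith
    · have hr1 : 1 ≤ r.totient := Nat.totient_pos.2 hr.1
      refine (h1 X (X / r) y r.totient s hX hr1 ((Nat.totient_le r).trans hrX) (by omega) hsX h
        hy).trans ?_
      have h2 : C * Real.log (6 * Real.log X) ^ 9 * ((X / r : ℕ) : ℝ) / Real.log y ^ 2 ≤
          C * Real.log (6 * Real.log X) ^ 9 * X / Real.log y ^ 2 * (1 / (r : ℝ)) := by
        have h3 : ((X / r : ℕ) : ℝ) ≤ (X : ℝ) / r := Nat.cast_div_le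
        calc C * Real.log (6 * Real.log X) ^ 9 * ((X / r : ℕ) : ℝ) / Real.log y ^ 2
            ≤ C * Real.log (6 * Real.log X) ^ 9 * ((X : ℝ) / r) / Real.log y ^ 2 := by gcongr
          _ = _ := by ring
      linarith
  refine (sum_le_sum hterm).trans ?_
  rw [sum_add_distrib, ← mul_sum, sum_const, nsmul_eq_mul, Nat.card_Icc, Nat.add_sub_cancel]
  have e2 : ∑ r ∈ Icc 1 (X / Y), (1 : ℝ) / (r : ℝ) ≤ 1 + Real.log X := by
    have h2 : ∑ r ∈ Icc 1 (X / Y), (1 : ℝ) / (r : ℝ) ≤ ∑ r ∈ Icc 1 X, (1 : ℝ) / (r : ℝ) :=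
      sum_le_sum_of_subset_of_nonneg (Icc_subset_Icc_right (Nat.div_le_self _ _))
        (fun _ _ _ => by positivity)
    refine h2.trans ?_
    have h3 := harmonic_le_one_add_log X
    rw [harmonic_eq_sum_Icc] at h3
    push_cast at h3
    simpa [one_div] using h3
  have e4 : C * Real.log (6 * Real.log X) ^ 9 * X / Real.log y ^ 2 *
      ∑ r ∈ Icc 1 (X / Y), (1 : ℝ) / (r : ℝ)
      ≤ C * Real.log (6 * Real.log X) ^ 9 * (1 + Real.log X) * X / Real.log y ^ 2 := by
    calc _ ≤ C * Real.log (6 * Real.log X) ^ 9 * X / Real.log y ^ 2 * (1 + Real.log X) := by gcongr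
      _ = _ := by ring
  have e5 : ((X / Y : ℕ) : ℝ) * (3 * (y : ℝ) ^ 18) ≤ 3 * (y : ℝ) ^ 18 * ((X : ℝ) / Y) := by
    have h3 : ((X / Y : ℕ) : ℝ) ≤ (X : ℝ) / Y := Nat.cast_div_le
    calc ((X / Y : ℕ) : ℝ) * (3 * (y : ℝ) ^ 18) ≤ ((X : ℝ) / Y) * (3 * (y : ℝ) ^ 18) := by gcongr
      _ = _ := by ring
  linarith

end Pool.Agent.H5S
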