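import Mathlib
import Pool.Agent.H5S.DecompS
import Pool.Agent.SmR.Rankin

open Finset Filter Topology

namespace Pool.Agent.H5S

/-- `φ(m) + s` is prime for at most `C X (log log X)^11 / log X` values `m ≤ X`, uniformly in
`2 ≤ s ≤ X ^ 2` -/
theorem shifted_totient_prime : ∃ C : ℝ, 0 < C ∧ ∃ X₀ : ℕ, ∀ X s : ℕ, X₀ ≤ X → 2 ≤ s →
    s ≤ X ^ 2 → (((Icc 1 X).filter (fun m => (m.totient + s).Prime)).card : ℝ) ≤
      C * (X * Real.log (Real.log X) ^ 11 / Real.log X) := by
  classical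
  obtain ⟨C, hC, h3⟩ := third_s
  obtain ⟨R, hR, hrank⟩ := Pool.Agent.SmR.smooth_rankin
  refine ⟨R + 5 + C * 1024 * 20736, by positivity, ?_⟩
  have hcast : Tendsto (fun X : ℕ => (X : ℝ)) atTop atTop := tendsto_natCast_atTop_atTop
  have hl : Tendsto (fun X : ℕ => Real.log (X : ℝ)) atTop atTop :=
    Real.tendsto_log_atTop.comp hcast
  have hev : ∀ᶠ X : ℕ in atTop, 3 ≤ X ∧ max (Real.exp 2) (2304 ^ 2) ≤ Real.log X := by
    filter_upwards [eventually_ge_atTop 3,
      hl.eventually_ge_atTop (max (Real.exp 2) (2304 ^ 2))] with X e1 e2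
    exact ⟨e1, e2⟩
  obtain ⟨X₀, hX₀⟩ := eventually_atTop.1 hev
  refine ⟨X₀, fun X s hX hs hsX => ?_⟩
  obtain ⟨e1, e2⟩ := hX₀ X hX
  have hXpos : (0 : ℝ) < X := by positivity
  set L : ℝ := Real.log X with hL
  have hLe : Real.exp 2 ≤ L := (le_max_left _ _).trans e2
  have hL2 : (2304 : ℝ) ^ 2 ≤ L := (le_max_right _ _).trans e2
  have hL0 : 0 < L := by linarith [Real.exp_pos 2]
  set lam : ℝ := Real.log L with hlam
  have hlam2 : 2 ≤ lam := by
    rw [hlam, Real.le_log_iff_exp_le hL0]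
    exact hLe
  have hlam0 : 0 < lam := by linarith
  -- `72 lam (lam + 1) ≤ L`
  have hbig : 72 * lam * (lam + 1) ≤ L := by
    have h1 := Real.log_le_rpow_div (x := L) hL0.le (ε := 1 / 4) (by norm_num)
    have h2 : lam ^ 2 ≤ 16 * Real.sqrt L := by
      calc lam ^ 2 ≤ (L ^ (1 / 4 : ℝ) / (1 / 4)) ^ 2 := by gcongr
        _ = 16 * Real.sqrt L := by
          rw [div_pow, ← Real.rpow_natCast, ← Real.rpow_mul hL0.le, Real.sqrt_eq_rpow]
          norm_num
          ring
    have h4 : (2304 : ℝ) ≤ Real.sqrt L := Real.le_sqrt_of_sq_le hL2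
    have h5 : Real.sqrt L * Real.sqrt L = L := Real.mul_self_sqrt hL0.le
    have h6 : 72 * lam * (lam + 1) ≤ 144 * lam ^ 2 := by nlinarith
    nlinarith
  set u : ℝ := L / (72 * lam) with hu
  have hu1 : lam + 1 ≤ u := by
    rw [hu, le_div_iff₀ (by positivity)]
    linarith
  set x : ℝ := Real.exp u with hxdef
  have hx0 : 0 < x := Real.exp_pos _
  have hl2 : Real.log 2 < 1 := by
    have := Real.log_two_lt_d9
    linarith
  have hl20 : 0 < Real.log 2 := Real.log_pos (by norm_num)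
  have hx2L : 2 * L ≤ x := by
    have : 2 * L = Real.exp (Real.log 2 + lam) := by
      rw [Real.exp_add, Real.exp_log (by norm_num), hlam, Real.exp_log hL0]
    rw [this, hxdef]
    exact Real.exp_le_exp.2 (by linarith)
  set y : ℕ := ⌊x⌋₊ with hy
  have hyx : (y : ℝ) ≤ x := Nat.floor_le hx0.le
  have hxy : x < y + 1 := Nat.lt_floor_add_one x
  have hL1 : (2304 : ℝ) ≤ L := by nlinarith
  have hyL : L ≤ y := by linarith
  have hy2r : (2 : ℝ) ≤ y := by linarith
  have hy2 : 2 ≤ y := by exact_mod_cast hy2r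
  have hy0 : (0 : ℝ) < y := by linarith
  have hlogy1 : Real.log y ≤ u := by
    have := Real.log_le_log hy0 hyx
    rwa [hxdef, Real.log_exp] at this
  have hlogy2 : u / 2 ≤ Real.log y := by
    have h1 : x / 2 ≤ y := by linarith
    have h2 : Real.log (x / 2) ≤ Real.log y := Real.log_le_log (by positivity) h1
    rw [Real.log_div hx0.ne' (by norm_num), hxdef, Real.log_exp] at h2
    linarith
  have hlogy0 : 0 < Real.log y := by linarith
  have hY1 : 1 ≤ y ^ 36 := Nat.one_le_pow _ _ (by omega)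
  have hY64 : 64 ≤ y ^ 36 := by
    calc 64 ≤ 2 ^ 36 := by norm_num
      _ ≤ y ^ 36 := Nat.pow_le_pow_left hy2 36
  have hlogY : Real.log ((y ^ 36 : ℕ) : ℝ) = 36 * Real.log y := by
    push_cast
    rw [Real.log_pow]
    push_cast
    ring
  have hlogY1 : 36 * Real.log y ≤ L / (2 * lam) := by
    have : 36 * u = L / (2 * lam) := by
      rw [hu]
      field_simp
      norm_num
    linarith
  have hYX : y ^ 36 ≤ X := by
    have h1 : ((y ^ 36 : ℕ) : ℝ) ≤ X := by
      rw [← Real.log_le_log_iff (by positivity) hXpos, hlogY]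
      refine hlogY1.trans ?_
      rw [div_le_iff₀ (by positivity)]
      nlinarith
    exact_mod_cast h1
  have hdec := decomp_s X (y ^ 36) s hY1
  have hthird := h3 X (y ^ 36) y s e1 hy2 hY1 hYX hs hsX
  have hsm := hrank X (y ^ 36) hY64 hYX
    ((Icc 1 X).filter (fun m => ∀ p, p.Prime → p ∣ m → p ≤ y ^ 36)) (filter_subset _ _)
    (fun m hm p hp hpm => (mem_filter.1 hm).2 p hp hpm)
  have hlam11 : 1 ≤ lam ^ 11 := one_le_pow₀ (by linarith)
  have hQ : X / L ≤ X * lam ^ 11 / L := by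
    refine div_le_div_of_nonneg_right ?_ hL0.le
    nlinarith
  have t2 : R * X * Real.log ((y ^ 36 : ℕ) : ℝ) *
      Real.exp (-(Real.log X / Real.log ((y ^ 36 : ℕ) : ℝ))) ≤ R * (X * lam ^ 11 / L) := by
    rw [hlogY]
    have h1 : Real.exp (-(Real.log X / (36 * Real.log y))) ≤ (L ^ 2)⁻¹ := by
      have h2 : 2 * lam ≤ L / (36 * Real.log y) := by
        rw [le_div_iff₀ (by positivity)]
        rw [le_div_iff₀ (by positivity)] at hlogY1
        linarith
      calc Real.exp (-(Real.log X / (36 * Real.log y))) ≤ Real.exp (-(2 * lam)) :=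
            Real.exp_le_exp.2 (neg_le_neg h2)
        _ = (L ^ 2)⁻¹ := by
          rw [Real.exp_neg, two_mul, Real.exp_add, hlam, Real.exp_log hL0, pow_two]
    have h2 : 36 * Real.log y ≤ L := by
      refine hlogY1.trans ?_
      rw [div_le_iff₀ (by positivity)]
      nlinarith
    calc R * X * (36 * Real.log y) * Real.exp (-(Real.log X / (36 * Real.log y)))
        ≤ R * X * L * (L ^ 2)⁻¹ := by gcongr
      _ = R * (X / L) := by field_simp
      _ ≤ R * (X * lam ^ 11 / L) := by gcongr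
  have hyY : (y : ℝ) ≤ (y : ℝ) ^ 36 := le_self_pow₀ (by linarith) (by norm_num)
  have t3 : (X : ℝ) * (2 / (((y ^ 36 : ℕ) : ℝ) + 1)) ≤ 2 * (X * lam ^ 11 / L) := by
    have h1 : 2 / (((y ^ 36 : ℕ) : ℝ) + 1) ≤ 2 / L := by
      refine div_le_div_of_nonneg_left (by norm_num) hL0 ?_
      push_cast
      linarith
    calc (X : ℝ) * (2 / (((y ^ 36 : ℕ) : ℝ) + 1)) ≤ X * (2 / L) := by gcongr
      _ = 2 * (X / L) := by ring
      _ ≤ 2 * (X * lam ^ 11 / L) := by gcongr
  have t6 : 3 * (y : ℝ) ^ 18 * ((X : ℝ) / ((y ^ 36 : ℕ) : ℝ)) ≤ 3 * (X * lam ^ 11 / L) := by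
    push_cast
    have h1 : 3 * (y : ℝ) ^ 18 * ((X : ℝ) / (y : ℝ) ^ 36) = 3 * (X / (y : ℝ) ^ 18) := by
      field_simp
    have h2 : (y : ℝ) ≤ (y : ℝ) ^ 18 := le_self_pow₀ (by linarith) (by norm_num)
    rw [h1]
    have h4 : (X : ℝ) / (y : ℝ) ^ 18 ≤ X / L := by
      refine div_le_div_of_nonneg_left hXpos.le hL0 ?_
      linarith
    linarith
  have t5 : C * Real.log (6 * Real.log X) ^ 9 * (1 + Real.log X) * X / Real.log y ^ 2 ≤
      C * 1024 * 20736 * (X * lam ^ 11 / L) := by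
    have h6 : Real.log (6 * Real.log X) ≤ 2 * lam := by
      have h7 : Real.log 6 ≤ 2 := by
        rw [Real.log_le_iff_le_exp (by norm_num)]
        have := Real.exp_one_gt_d9
        have h8 : Real.exp 2 = Real.exp 1 * Real.exp 1 := by rw [← Real.exp_add]; norm_num
        rw [h8]
        nlinarith
      rw [← hL, Real.log_mul (by norm_num) hL0.ne']
      linarith
    have h60 : 0 ≤ Real.log (6 * Real.log X) := Real.log_nonneg (by rw [← hL]; linarith)
    have h1 : (u / 2) ^ 2 ≤ Real.log y ^ 2 := by gcongr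
    calc C * Real.log (6 * Real.log X) ^ 9 * (1 + Real.log X) * X / Real.log y ^ 2
        ≤ C * (2 * lam) ^ 9 * (L + L) * X / (u / 2) ^ 2 := by
          gcongr
          linarith
      _ = C * 1024 * 20736 * (X * lam ^ 11 / L) := by
          rw [hu]
          field_simp
          ring
  have e3 : 0 ≤ X * lam ^ 11 / L := by positivity
  linarith

end Pool.Agent.H5S
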