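import Mathlib
import Pool.Agent.H5S.Base
import Pool.Agent.H5S.Decomp
import Pool.Agent.SmC.Count

open Finset Filter Topology

namespace Pool.Agent.H5S

/-- `φ(m) + 1` is prime for almost no `m` -/
theorem totient_add_one_sparse {ε : ℝ} (hε : 0 < ε) : ∃ X₀ : ℕ, ∀ X : ℕ, X₀ ≤ X →
    (((Icc 1 X).filter (fun m => (m.totient + 1).Prime)).card : ℝ) ≤ ε * X := by
  classical
  obtain ⟨C, hC, h3⟩ := third
  obtain ⟨C', hC'⟩ := primes_sparse (ε := ε / 24) (by positivity)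
  obtain ⟨D, hD1⟩ := exists_nat_gt (max (2592 / ε) 36)
  have hDε : 2592 / ε < D := (le_max_left _ _).trans_lt hD1
  have hD36 : (36 : ℝ) < D := (le_max_right _ _).trans_lt hD1
  have hD36' : 36 ≤ D := by exact_mod_cast hD36.le
  have hD0 : (0 : ℝ) < D := by linarith
  have hcast : Tendsto (fun X : ℕ => (X : ℝ)) atTop atTop := tendsto_natCast_atTop_atTop
  have hx : Tendsto (fun X : ℕ => (X : ℝ) ^ (1 / (D : ℝ))) atTop atTop :=
    (tendsto_rpow_atTop (by positivity)).comp hcast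
  have hl : Tendsto (fun X : ℕ => Real.log (X : ℝ)) atTop atTop :=
    Real.tendsto_log_atTop.comp hcast
  have hsl : Tendsto (fun X : ℕ => Real.sqrt (Real.log (X : ℝ))) atTop atTop :=
    Real.tendsto_sqrt_atTop.comp hl
  have hsX : Tendsto (fun X : ℕ => Real.sqrt (X : ℝ)) atTop atTop :=
    Real.tendsto_sqrt_atTop.comp hcast
  have hev : ∀ᶠ X : ℕ in atTop, 3 ≤ X ∧ 6 / ε ≤ Real.sqrt X ∧
      18 / ε + 3 ≤ (X : ℝ) ^ (1 / (D : ℝ)) ∧ 24 * |C'| / ε ≤ X ∧
      48 * C * D ^ 2 / ε ≤ Real.sqrt (Real.log X) ∧ max (2 * D * Real.log 2) 1 ≤ Real.log X := by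
    filter_upwards [eventually_ge_atTop 3, hsX.eventually_ge_atTop (6 / ε),
      hx.eventually_ge_atTop (18 / ε + 3), hcast.eventually_ge_atTop (24 * |C'| / ε),
      hsl.eventually_ge_atTop (48 * C * D ^ 2 / ε),
      hl.eventually_ge_atTop (max (2 * D * Real.log 2) 1)] with X e1 e2 e3 e4 e5 e6
    exact ⟨e1, e2, e3, e4, e5, e6⟩
  obtain ⟨X₀, hX₀⟩ := eventually_atTop.1 hev
  refine ⟨X₀, fun X hX => ?_⟩
  obtain ⟨e1, e2, e3, e4, e5, e6⟩ := hX₀ X hX
  have hXpos : (0 : ℝ) < X := by positivity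
  set L : ℝ := Real.log X with hL
  have hL1 : 1 ≤ L := (le_max_right _ _).trans e6
  have hL2 : 2 * D * Real.log 2 ≤ L := (le_max_left _ _).trans e6
  set x : ℝ := (X : ℝ) ^ (1 / (D : ℝ)) with hxdef
  have h18 : 0 < 18 / ε := by positivity
  have hx0 : 0 < x := by linarith
  set y : ℕ := ⌊x⌋₊ with hy
  have hyx : (y : ℝ) ≤ x := Nat.floor_le hx0.le
  have hxy : x < y + 1 := Nat.lt_floor_add_one x
  have hy18 : 18 / ε ≤ y := by linarith
  have hy2r : (2 : ℝ) ≤ y := by linarith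
  have hy2 : 2 ≤ y := by exact_mod_cast hy2r
  have hy0 : (0 : ℝ) < y := by linarith
  -- powers
  have hxD : x ^ D = X := by
    rw [hxdef, ← Real.rpow_natCast, ← Real.rpow_mul hXpos.le, one_div, inv_mul_cancel₀ hD0.ne',
      Real.rpow_one]
  have hYX : y ^ 36 ≤ X := by
    have h1 : (y : ℝ) ^ 36 ≤ X := by
      calc (y : ℝ) ^ 36 ≤ (y : ℝ) ^ D := pow_le_pow_right₀ (by linarith) hD36'
        _ ≤ x ^ D := by gcongr
        _ = X := hxD
    exact_mod_cast h1
  have hlogx : Real.log x = L / D := by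
    rw [hxdef, Real.log_rpow hXpos]
    ring
  have hlogy1 : Real.log y ≤ L / D := by
    rw [← hlogx]
    exact Real.log_le_log hy0 hyx
  have hlogy2 : L / (2 * D) ≤ Real.log y := by
    have h1 : x / 2 ≤ y := by linarith
    have h2 : Real.log (x / 2) ≤ Real.log y := Real.log_le_log (by positivity) h1
    rw [Real.log_div hx0.ne' (by norm_num), hlogx] at h2
    have h4 : Real.log 2 ≤ L / (2 * D) := by
      rw [le_div_iff₀ (by positivity)]
      linarith
    have h5 : L / D = L / (2 * D) + L / (2 * D) := by field_simp; ring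
    linarith
  have hL0 : 0 < L := by linarith
  have hlogy0 : 0 < Real.log y := lt_of_lt_of_le (by positivity) hlogy2
  -- assemble
  have hY1 : 1 ≤ y ^ 36 := Nat.one_le_pow _ _ (by omega)
  have hY2 : 2 ≤ y ^ 36 := by
    calc 2 ≤ y ^ 1 := by simpa using hy2
      _ ≤ y ^ 36 := Nat.pow_le_pow_right (by omega) (by norm_num)
  have hdec := decomp X (y ^ 36) hY1
  have hthird := h3 X (y ^ 36) y e1 hy2 hY1 hYX
  have hsm := Pool.Agent.SmC.smooth_card (X := X) (Y := y ^ 36) hY2 (by omega)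
    (S := (Icc 1 X).filter (fun m => ∀ p, p.Prime → p ∣ m → p ≤ y ^ 36)) (filter_subset _ _)
    (fun m hm p hp hpm => (mem_filter.1 hm).2 p hp hpm)
  -- the six terms
  have t1 : Real.sqrt X ≤ ε / 6 * X := by
    have h1 : Real.sqrt X * Real.sqrt X = X := Real.mul_self_sqrt hXpos.le
    have h2 : 1 ≤ ε / 6 * Real.sqrt X := by
      rw [div_le_iff₀ hε] at e2
      linarith
    calc Real.sqrt X = 1 * Real.sqrt X := (one_mul _).symm
      _ ≤ (ε / 6 * Real.sqrt X) * Real.sqrt X := by gcongr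
      _ = ε / 6 * X := by rw [mul_assoc, h1]
  have t2 : 12 * X * Real.log ((y ^ 36 : ℕ) : ℝ) / Real.log X ≤ ε / 6 * X := by
    rw [div_le_iff₀ hL0]
    push_cast
    rw [Real.log_pow]
    push_cast
    have h1 : 36 * Real.log y ≤ 36 * (L / D) := by linarith
    have h2 : 432 / (D : ℝ) ≤ ε / 6 := by
      rw [div_le_iff₀ hD0]
      rw [div_lt_iff₀ hε] at hDε
      linarith
    calc 12 * (X : ℝ) * (36 * Real.log y) ≤ 12 * X * (36 * (L / D)) := by gcongr
      _ = (432 / (D : ℝ)) * X * L := by ring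
      _ ≤ ε / 6 * X * L := by gcongr
  have hYy : (y : ℝ) ≤ (y : ℝ) ^ 36 := le_self_pow₀ (by linarith) (by norm_num)
  have t3 : (X : ℝ) * (2 / (((y ^ 36 : ℕ) : ℝ) + 1)) ≤ ε / 6 * X := by
    have h1 : 2 / (((y ^ 36 : ℕ) : ℝ) + 1) ≤ ε / 6 := by
      rw [div_le_iff₀ (by positivity)]
      push_cast
      rw [div_le_iff₀ hε] at hy18
      nlinarith
    calc (X : ℝ) * (2 / (((y ^ 36 : ℕ) : ℝ) + 1)) ≤ X * (ε / 6) := by gcongr
      _ = _ := by ring
  have t4 : 2 * (((Icc 1 X).filter Nat.Prime).card : ℝ) ≤ ε / 6 * X := by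
    have h1 := hC' X
    have h2 : C' ≤ |C'| := le_abs_self _
    rw [div_le_iff₀ hε] at e4
    nlinarith
  have t5 : C * Real.sqrt (Real.log X) * (1 + Real.log X) * X / Real.log y ^ 2 ≤ ε / 6 * X := by
    have hs : Real.sqrt L * Real.sqrt L = L := Real.mul_self_sqrt hL0.le
    have hs0 : 0 < Real.sqrt L := Real.sqrt_pos.2 hL0
    have h1 : (L / (2 * D)) ^ 2 ≤ Real.log y ^ 2 := by gcongr
    have h2 : C * Real.sqrt L * (1 + L) * X / Real.log y ^ 2 ≤
        C * Real.sqrt L * (1 + L) * X / (L / (2 * D)) ^ 2 := by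
      gcongr
    refine h2.trans ?_
    rw [div_le_iff₀ (by positivity)]
    rw [div_le_iff₀ hε] at e5
    have h4 : C * Real.sqrt L * (1 + L) * X ≤ C * Real.sqrt L * (2 * L) * X := by
      gcongr
      linarith
    refine h4.trans ?_
    have h5 : ε / 6 * X * (L / (2 * D)) ^ 2 = (X * L * Real.sqrt L) * (ε * Real.sqrt L) / (24 * D ^ 2) := by
      have : L ^ 2 = L * (Real.sqrt L * Real.sqrt L) := by rw [hs]; ring
      rw [div_pow, this]
      field_simp
      ring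
    rw [h5, le_div_iff₀ (by positivity)]
    calc C * Real.sqrt L * (2 * L) * X * (24 * D ^ 2) = (X * L * Real.sqrt L) * (48 * C * D ^ 2) := by
          ring
      _ ≤ (X * L * Real.sqrt L) * (ε * Real.sqrt L) := by
          refine mul_le_mul_of_nonneg_left ?_ (by positivity)
          linarith
  have t6 : 3 * (y : ℝ) ^ 18 * ((X : ℝ) / ((y ^ 36 : ℕ) : ℝ)) ≤ ε / 6 * X := by
    push_cast
    have h1 : 3 * (y : ℝ) ^ 18 * ((X : ℝ) / (y : ℝ) ^ 36) = 3 * X / (y : ℝ) ^ 18 := by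
      field_simp
    rw [h1, div_le_iff₀ (by positivity)]
    have h2 : (y : ℝ) ≤ (y : ℝ) ^ 18 := le_self_pow₀ (by linarith) (by norm_num)
    rw [div_le_iff₀ hε] at hy18
    have h4 : 3 ≤ ε / 6 * (y : ℝ) ^ 18 := by nlinarith
    nlinarith
  linarith

end Pool.Agent.H5S
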